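import Pool.Agent.Helper94_PRP.FIN
import Pool.Agent.Helper94_PRP.BNS
import Pool.Agent.Helper94_PRP.CPR
import Pool.Agent.Helper94_PRP.HYP
import Pool.Agent.Helper63_PRP.COR
import Pool.Agent.Helper63_PRP.REG
import Pool.Agent.Helper95_PRP.AFF
import Pool.Agent.Helper2_PRP.SPF

/-!
# Points of fixed degree and correspondences

`X` is an integral scheme locally of finite type over a number field `k`, with function field `L`;
`M` is a regular extension of `L` with a second embedding `φ : L → M` over `k`, and `M = L(φ(L))`:
the function field of a correspondence in `X × X` whose fibres over `X` are geometrically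
irreducible. A presentation of `M` as a finite extension of degree `n` of a purely transcendental
extension of `L` moves the closed points of degree `d` to closed points of degree `n d`.
-/

set_option autoImplicit false

open AlgebraicGeometry CategoryTheory
open scoped TensorProduct
open Pool.Agent.DDS (DenseClosed degAt)
open Pool.Agent.PRP.H94 (constF)

namespace Pool.Agent.Results.MP_1bc3a0_ag.Correspondences

theorem result :
    ∀ (k : Type) [Field k] [NumberField k] (X : Scheme.{0}) [IsIntegral X]
      (f : X ⟶ Spec (CommRingCat.of k)) [LocallyOfFiniteType f]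
      (M : Type) [Field M] [Algebra X.functionField M] (φ : X.functionField →+* M),
      (∀ a : k, φ (constF f a) = algebraMap X.functionField M (constF f a)) →
      IntermediateField.adjoin X.functionField (Set.range φ) = ⊤ →
      IsDomain (AlgebraicClosure X.functionField ⊗[X.functionField] M) →
      -- (1) rational maps to projective space
      (∀ (s n : ℕ) (t : Fin s → M), 0 < s → 0 < n → AlgebraicIndependent X.functionField t →
        Module.finrank (IntermediateField.adjoin X.functionField (Set.range t)) M = n →
        (∀ d : ℕ, DenseClosed f d → DenseClosed f (n * d)) ∧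
        (@Algebra.trdeg k X.functionField _ _ (constF f).toAlgebra = s →
          ∃ U : Set X, IsOpen U ∧ U.Nonempty ∧
            ∀ x ∈ U, IsClosed ({x} : Set X) → DenseClosed f (n * degAt f x))) ∧
      -- (2) Weierstrass cubics
      (∀ (u v : M) (a b : X.functionField), Transcendental X.functionField u →
        v ^ 2 = u ^ 3 + algebraMap X.functionField M a * u + algebraMap X.functionField M b →
        IntermediateField.adjoin X.functionField {u, v} = ⊤ →
        ∀ d n : ℕ, 0 < n → DenseClosed f d → DenseClosed f (n * d)) ∧
      -- (3) hyperelliptic curves with a rational point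
      (∀ (u v : M) (F : Polynomial X.functionField) (g : ℕ), Transcendental X.functionField u →
        F.natDegree ≤ 2 * g + 2 → F.coeff 0 = 1 → v ^ 2 = Polynomial.aeval u F →
        IntermediateField.adjoin X.functionField {u, v} = ⊤ →
        ∀ d n : ℕ, 0 < n → (Even n ∨ g < n) → DenseClosed f d → DenseClosed f (n * d)) := by
  intro k _ _ X _ f _ M _ _ φ hφk hgen hdom
  have hCOR := Pool.Agent.PRP.H63.cor Pool.Agent.PRP.H63.reg
    (Pool.Agent.PRP.H94.cpr Pool.Agent.PRP.H94.bns Pool.Agent.PRP.H2.spf)
  have hAFF := Pool.Agent.PRP.H95.aff hCOR
  have hk0 : CharZero X.functionField := charZero_of_injective_ringHom (constF f).injective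
  have h1 : ∀ (t : M) (n : ℕ), 0 < n → Transcendental X.functionField t →
      Module.finrank (IntermediateField.adjoin X.functionField {t}) M = n →
      ∀ d : ℕ, DenseClosed f d → DenseClosed f (n * d) := by
    intro t n hn ht hfin d hd
    have hr : Set.range (fun _ : Fin 1 => t) = {t} := Set.range_const
    refine Pool.Agent.PRP.H94.fin_dense hAFF f M φ 1 n (fun _ => t) hφk hgen hdom one_pos hn ?_ ?_
      d hd
    · rw [algebraicIndependent_unique_type_iff]
      exact ht
    · rw [hr]
      exact hfin
  refine ⟨?_, ?_, ?_⟩
  · intro s n t hs hn hind hfin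
    exact ⟨fun d hd => Pool.Agent.PRP.H94.fin_dense hAFF f M φ s n t hφk hgen hdom hs hn hind hfin
      d hd, fun htr => Pool.Agent.PRP.H94.fin_one hCOR f M φ s n t hφk hgen hdom hs hn hind hfin
      htr⟩
  · intro u v a b hu hv htop d n hn hd
    rcases Nat.lt_or_ge 1 n with h | h
    · obtain ⟨t, ht, hfin⟩ := Pool.Agent.PRP.H94.wei u v a b hu hv htop n h
      exact h1 t n hn ht hfin d hd
    · have : n = 1 := by omega
      rw [this, one_mul]
      exact hd
  · intro u v F g hu hF hF0 hv htop d n hn h hd
    obtain ⟨t, ht, hfin⟩ := Pool.Agent.PRP.H94.hyp u v F g hF hF0 hu hv htop n hn h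
    exact h1 t n hn ht hfin d hd

end Pool.Agent.Results.MP_1bc3a0_ag.Correspondences
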