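import Pool.Agent.Helper12_DDS.CoverSch

set_option autoImplicit false

open AlgebraicGeometry CategoryTheory

namespace Pool.Agent.Results.MP_1bc3a0_ag.DoubleCovers

theorem result :
    ∀ (k : Type) [Field k] [NumberField k] (X : Scheme.{0})
      (f : X ⟶ Spec (CommRingCat.of k)),
      IrreducibleSpace X →
      LocallyOfFiniteType f →
      ∀ (r : ℕ) (I : Set (MvPolynomial (Fin r) k)) (h : Polynomial (MvPolynomial (Fin r) k)),
      h.natDegree ≤ 6 →
      (Pool.Agent.DDS.coverIdeal I h).IsPrime →
      Pool.Agent.DDS.Birational f (Spec.map (CommRingCat.ofHom (algebraMap k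
        (MvPolynomial (Fin r ⊕ Fin 2) k ⧸ Pool.Agent.DDS.coverIdeal I h)))) →
      ∀ d n : ℕ, 0 < d → 0 < n →
        Dense {x : X | IsClosed ({x} : Set X) ∧
          @Module.finrank k (X.residueField x) _ _
            (((Scheme.ΓSpecIso (CommRingCat.of k)).inv ≫ f.appTop ≫
              X.presheaf.germ ⊤ x trivial ≫ X.residue x).hom.toModule) = d} →
        Dense {x : X | IsClosed ({x} : Set X) ∧
          @Module.finrank k (X.residueField x) _ _
            (((Scheme.ΓSpecIso (CommRingCat.of k)).inv ≫ f.appTop ≫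
              X.presheaf.germ ⊤ x trivial ≫ X.residue x).hom.toModule) = n * d} := by
  intro k _ _ X f hX hf r I h hdeg hJ hbir d n _ hn hd
  exact Pool.Agent.DDS.cover_scheme f I h hdeg hJ hbir hn hd

end Pool.Agent.Results.MP_1bc3a0_ag.DoubleCovers
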