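import Pool.Agent.Helper55_DDQ.Sch

/-!
# Points of fixed degree on quartic surfaces

`F` is an absolutely irreducible polynomial of degree 2, 3 or 4 in three variables over a number
field `k`, and `X` is birational over `k` to the surface `F = 0`. If the closed points of degree `d`
are dense in `X`, so are those of degree `n d`, for every `n ≥ 1`. If `n ≥ deg F - 1`, one point of
degree `d` of the surface `F = 0` which is smooth and not flat is enough.
-/

set_option autoImplicit false

open AlgebraicGeometry CategoryTheory

namespace Pool.Agent.Results.MP_1bc3a0_ag.QuarticSurfaces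

theorem result :
    ∀ (k : Type) [Field k] [NumberField k] (X : Scheme.{0})
      (f : X ⟶ Spec (CommRingCat.of k)),
      IrreducibleSpace X →
      LocallyOfFiniteType f →
      ∀ F : MvPolynomial (Fin 3) k,
      2 ≤ F.totalDegree → F.totalDegree ≤ 4 →
      Irreducible (MvPolynomial.map (algebraMap k (AlgebraicClosure k)) F) →
      Pool.Agent.DDS.Birational f (Spec.map (CommRingCat.ofHom (algebraMap k
        (MvPolynomial (Fin 3) k ⧸ Ideal.span {F})))) →
      ∀ d n : ℕ, 0 < d → 0 < n →
        (Dense {x : X | IsClosed ({x} : Set X) ∧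
          @Module.finrank k (X.residueField x) _ _
            (((Scheme.ΓSpecIso (CommRingCat.of k)).inv ≫ f.appTop ≫
              X.presheaf.germ ⊤ x trivial ≫ X.residue x).hom.toModule) = d} ∨
          (F.totalDegree ≤ n + 1 ∧ ∃ y : Fin 3 → AlgebraicClosure k,
            MvPolynomial.aeval y F = 0 ∧
            (∃ i j l m, MvPolynomial.aeval y (Pool.Agent.DDQ.hess F i j l m) ≠ 0) ∧
            Module.finrank k (IntermediateField.adjoin k (Set.range y)) = d)) →
        Dense {x : X | IsClosed ({x} : Set X) ∧
          @Module.finrank k (X.residueField x) _ _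
            (((Scheme.ΓSpecIso (CommRingCat.of k)).inv ≫ f.appTop ≫
              X.presheaf.germ ⊤ x trivial ≫ X.residue x).hom.toModule) = n * d} := by
  intro k _ _ X f hX hf F h2 h4 hF hbir d n _ hn h
  have hm := Pool.Agent.DDQ.H55.scheme_main k X f F h2 h4 hF hbir d n hn
  rcases h with h | ⟨hnD, h⟩
  · exact hm.1 h
  · exact hm.2 hnD h

end Pool.Agent.Results.MP_1bc3a0_ag.QuarticSurfaces
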